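import Pool.Graph.R_pool_sql_team_39128cda.H.MP_94dfa5_al.A

/-!
# Permutation stability fails for semidirect products with every nontrivial finite group
-/

set_option autoImplicit false

namespace Pool.Agent.Results.MP_94dfa5_al.EveryFiniteGroup

open Filter Topology
open Pool.Agent.H.MP_94dfa5_al (Bi Hs fin_stable)

/-- `K` is stable in permutations: for all finite `S ⊆ K` and `ε > 0` there are a finite `T ⊆ K` and
`δ > 0` such that every map `f : K → Sym(n)`, for any `n`, with
`d(f (g h), f g f h) < δ` for `g, h ∈ T`, is `ε`-close on `S` to a homomorphism. -/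
def StableInPermutations (K : Type) [Group K] : Prop :=
  ∀ (S : Finset K) (ε : ℝ), 0 < ε → ∃ (T : Finset K) (δ : ℝ), 0 < δ ∧
    ∀ (n : ℕ) (f : K → Equiv.Perm (Fin n)),
      (∀ g ∈ T, ∀ h ∈ T,
        ((Finset.univ.filter (fun i : Fin n => f (g * h) i ≠ (f g * f h) i)).card : ℝ)
          / (n : ℝ) < δ) →
      ∃ ρ : K →* Equiv.Perm (Fin n), ∀ g ∈ S,
        ((Finset.univ.filter (fun i : Fin n => f g i ≠ ρ g i)).card : ℝ) / (n : ℝ) < ε

/-- every finite set is fixed by a retraction-like map through a finite group -/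
def LR (L : Type) [Group L] : Prop :=
  ∀ S : Finset L, ∃ (F : Type) (_ : Group F) (_ : Finite F) (i : F →* L) (r : L →* F),
    ∀ s ∈ S, i (r s) = s

theorem LR.stable {L : Type} [Group L] (hL : LR L) : StableInPermutations L := by
  classical
  intro S ε hε
  obtain ⟨F, _, _, i, r, hir⟩ := hL S
  let _ : Fintype F := Fintype.ofFinite _
  have hN : (0 : ℝ) < (Fintype.card F : ℝ) ^ 3 := by
    have : 0 < Fintype.card F := Fintype.card_pos
    positivity
  refine ⟨Finset.univ.image i, ε / 2 / (Fintype.card F : ℝ) ^ 3, by positivity,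
    fun n f hf => ?_⟩
  rcases Nat.eq_zero_or_pos n with rfl | hn
  · exact ⟨1, fun g _ => by simpa using hε⟩
  have hn' : (0 : ℝ) < n := by exact_mod_cast hn
  obtain ⟨ρ, hρ⟩ := fin_stable (fun x : F => f (i x)) (ε / 2 / (Fintype.card F : ℝ) ^ 3 * n)
    (fun g h => by
      rw [map_mul]
      exact ((div_lt_iff₀ hn').1 (hf _ (Finset.mem_image_of_mem _ (Finset.mem_univ g)) _
        (Finset.mem_image_of_mem _ (Finset.mem_univ h)))).le)
  refine ⟨ρ.comp r, fun g hg => ?_⟩
  have := hρ (r g)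
  rw [hir g hg] at this
  rw [MonoidHom.comp_apply, div_lt_iff₀ hn']
  refine this.trans_lt ?_
  rw [← mul_assoc, mul_div_cancel₀ _ hN.ne']
  nlinarith

theorem LR.equiv {L L' : Type} [Group L] [Group L'] (e : L ≃* L') (h : LR L') : LR L := by
  classical
  intro S
  obtain ⟨F, hF, hF', i, r, hir⟩ := h (S.image e)
  exact ⟨F, hF, hF', e.symm.toMonoidHom.comp i, r.comp e.toMonoidHom, fun s hs => by
    show e.symm (i (r (e s))) = s
    rw [hir _ (Finset.mem_image_of_mem _ hs), e.symm_apply_apply]⟩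

/-! ### The basic group -/

section Basic

variable (N : ℕ)

abbrev W := ℕ →₀ ZMod N

noncomputable def Sm : W N →ₗ[ZMod N] ZMod N :=
  Finsupp.linearCombination (ZMod N) (fun _ => 1)

noncomputable def bG : Bi (W N × W N) (ZMod N × W N) where
  B a b := (0, a.1 * b.2)
  l a b c := by ext <;> simp; ring
  r a b c := by ext <;> simp; ring

abbrev G0 := Hs (bG N)

variable {N}

lemma GB (a b : W N × W N) : (bG N).B a b = (0, a.1 * b.2) := rfl

variable (N) in
def bE (n : ℕ) : Bi ((Fin n → ZMod N) × (Fin n → ZMod N)) (ZMod N) where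
  B a b := ∑ i, a.1 i * b.2 i
  l a b c := by simp [add_mul, Finset.sum_add_distrib]
  r a b c := by simp [mul_add, Finset.sum_add_distrib]

lemma EB (n : ℕ) (a b : (Fin n → ZMod N) × (Fin n → ZMod N)) :
    (bE N n).B a b = ∑ i, a.1 i * b.2 i := rfl

variable (N) in
/-- elements supported below `n` -/
def Gn (n : ℕ) : Subgroup (G0 N) where
  carrier := {x | ∀ i, n ≤ i → x.v.1 i = 0 ∧ x.v.2 i = 0 ∧ x.z.2 i = 0}
  one_mem' := by simp
  mul_mem' := by
    intro a b ha hb i hi
    obtain ⟨h1, h2, h3⟩ := ha i hi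
    obtain ⟨h4, h5, h6⟩ := hb i hi
    simp [GB, h1, h2, h3, h4, h5, h6]
  inv_mem' := by
    intro a ha i hi
    obtain ⟨h1, h2, h3⟩ := ha i hi
    simp [GB, h1, h2, h3]

lemma W_ev (u : W N) : ∀ᶠ n in atTop, ∀ i, n ≤ i → u i = 0 := by
  refine eventually_atTop.2 ⟨u.support.sup id + 1, fun n hn i hi => ?_⟩
  by_contra h
  have := Finset.le_sup (f := id) (Finsupp.mem_support_iff.2 h)
  simp only [id] at this
  omega

lemma Gn_ev (x : G0 N) : ∀ᶠ n in atTop, x ∈ Gn N n := by
  filter_upwards [W_ev x.v.1, W_ev x.v.2, W_ev x.z.2] with n h1 h2 h3 i hi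
  exact ⟨h1 i hi, h2 i hi, h3 i hi⟩

instance [NeZero N] (n : ℕ) : Finite (Gn N n) := by
  refine Finite.of_injective (fun x : Gn N n => ((fun i : Fin n => x.1.v.1 i),
    (fun i : Fin n => x.1.v.2 i), x.1.z.1, (fun i : Fin n => x.1.z.2 i))) ?_
  rintro ⟨x, hx⟩ ⟨y, hy⟩ h
  simp only [Prod.mk.injEq] at h
  have key : ∀ u w : W N, (∀ i, n ≤ i → u i = 0) → (∀ i, n ≤ i → w i = 0) →
      ((fun i : Fin n => u i) = fun i : Fin n => w i) → u = w := by
    intro u w hu hw e
    ext i
    by_cases hi : i < n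
    · exact congrFun e ⟨i, hi⟩
    · rw [hu i (by omega), hw i (by omega)]
  refine Subtype.ext (Hs.ext (Prod.ext ?_ ?_) (Prod.ext h.2.2.1 ?_))
  · exact key _ _ (fun i hi => (hx i hi).1) (fun i hi => (hy i hi).1) h.1
  · exact key _ _ (fun i hi => (hx i hi).2.1) (fun i hi => (hy i hi).2.1) h.2.1
  · exact key _ _ (fun i hi => (hx i hi).2.2) (fun i hi => (hy i hi).2.2) h.2.2.2

variable (N) in
noncomputable def rt (n : ℕ) : G0 N →* G0 N := MonoidHom.mk'
  (fun x => ⟨(x.v.1.filter (· < n), x.v.2.filter (· < n)), (x.z.1, x.z.2.filter (· < n))⟩)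
  (fun x y => by
    ext i
    · simp [Finsupp.filter_add]
    · simp [Finsupp.filter_add]
    · simp [GB]
    · by_cases h : i < n <;> simp [GB, h])

lemma rt_mem (n : ℕ) (x : G0 N) : rt N n x ∈ Gn N n := fun i hi => by
  have : ¬ i < n := by omega
  simp [rt, this]

lemma rt_eq (n : ℕ) (x : G0 N) (hx : x ∈ Gn N n) : rt N n x = x := by
  ext i <;> simp only [rt, MonoidHom.mk'_apply, Finsupp.filter_apply]
  all_goals
    split_ifs with h
    · rfl
    · first
      | exact ((hx i (by omega)).1).symm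
      | exact ((hx i (by omega)).2.1).symm
      | exact ((hx i (by omega)).2.2).symm

theorem LR_pi [NeZero N] (ι : Type) [Finite ι] : LR (ι → G0 N) := by
  classical
  intro S
  obtain ⟨m, hm⟩ := ((eventually_all_finset S).2 fun s _ =>
    eventually_all.2 fun x : ι => Gn_ev (s x)).exists
  refine ⟨ι → Gn N m, inferInstance, inferInstance,
    { toFun := fun g x => (g x : G0 N), map_one' := rfl, map_mul' := fun _ _ => rfl },
    { toFun := fun g x => ⟨rt N m (g x), rt_mem m _⟩
      map_one' := by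
        funext x
        exact Subtype.ext (map_one _)
      map_mul' := fun a b => by
        funext x
        exact Subtype.ext (map_mul _ _ _) }, fun s hs => ?_⟩
  funext x
  exact rt_eq m _ (hm s hs x)

noncomputable def al (a : ZMod N) : G0 N →* G0 N := MonoidHom.mk'
  (fun x => ⟨x.v, (x.z.1 + a * Sm N x.v.1, x.z.2 - a • x.v.1)⟩)
  (fun x y => by ext i <;> simp [GB] <;> ring)

lemma al_v (a : ZMod N) (x : G0 N) : (al a x).v = x.v := rfl
lemma al_z (a : ZMod N) (x : G0 N) :
    (al a x).z = (x.z.1 + a * Sm N x.v.1, x.z.2 - a • x.v.1) := rfl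

lemma al_add (a b : ZMod N) (x : G0 N) : al (a + b) x = al a (al b x) := by
  ext i <;> simp [al_v, al_z] <;> ring

lemma al_zero (x : G0 N) : al 0 x = x := by
  ext i <;> simp [al_v, al_z]

variable (N) in
/-- the action of the cyclic group of order `N` on the basic group -/
noncomputable def α : Multiplicative (ZMod N) →* MulAut (G0 N) := MonoidHom.mk'
  (fun a =>
    { toFun := al a.toAdd
      invFun := al (-a.toAdd)
      left_inv := fun x => by rw [← al_add, neg_add_cancel, al_zero]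
      right_inv := fun x => by rw [← al_add, add_neg_cancel, al_zero]
      map_mul' := map_mul _ })
  (fun a b => by ext1 x; exact al_add _ _ x)

lemma α_apply (a : Multiplicative (ZMod N)) (x : G0 N) : α N a x = al a.toAdd x := rfl

lemma α_inv_apply (a : Multiplicative (ZMod N)) (x : G0 N) :
    (α N a)⁻¹ x = al (-a.toAdd) x := rfl

/-- the quotient map onto the finite extraspecial type group -/
noncomputable def θ (n : ℕ) : G0 N →* Hs (bE N n) := MonoidHom.mk'
  (fun x => ⟨(fun i => x.v.1 i, fun i => x.v.2 i), x.z.1 + ∑ i : Fin n, x.z.2 i⟩)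
  (fun x y => by
    ext
    · simp
    · simp
    · simp [GB, EB, Finset.sum_add_distrib]; ring)

lemma θ_al (n : ℕ) (a : ZMod N) (x : G0 N) (hx : x ∈ Gn N n) : θ n (al a x) = θ n x := by
  have : Sm N x.v.1 = ∑ i : Fin n, x.v.1 i := by
    rw [Sm, Finsupp.linearCombination_apply, Finsupp.sum_of_support_subset (s := Finset.range n),
      Finset.sum_range]
    · simp
    · intro i hi
      by_contra h
      exact Finsupp.mem_support_iff.1 hi (hx i (by simpa using h)).1
    · simp
  ext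
  · simp [θ, al_v]
  · simp [θ, al_v]
  · simp [θ, al_v, al_z, this, Finset.mul_sum]

variable (N) in
noncomputable def g0 : G0 N := ⟨0, (1, 0)⟩
variable (N) in
noncomputable def e0 (i : ℕ) : G0 N := ⟨(Finsupp.single i 1, 0), 0⟩
variable (N) in
noncomputable def f0 (i : ℕ) : G0 N := ⟨(0, Finsupp.single i 1), 0⟩

lemma al_g0 (a : ZMod N) : al a (g0 N) = g0 N := by
  ext i <;> simp [al_v, al_z, g0]

lemma g0_comm (x : G0 N) : g0 N * x = x * g0 N := by
  ext i <;> simp [g0, GB]
  ring

lemma rel1 (i : ℕ) :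
    al 1 (e0 N i) * (e0 N i)⁻¹ * (e0 N i * f0 N i * (e0 N i)⁻¹ * (f0 N i)⁻¹) = g0 N := by
  ext j <;> simp [al_v, al_z, GB, Sm, Finsupp.single_apply, e0, f0, g0]
  split_ifs <;> ring

lemma rel2 (i j : ℕ) (h : i ≠ j) : e0 N j * f0 N i = f0 N i * e0 N j := by
  ext l <;> simp [GB, Finsupp.single_apply, e0, f0]
  intro h1 h2
  omega

end Basic

/-! ### The coinduced group -/

section Coind

variable {N : ℕ} {H : Type} [Group H] {C : Subgroup H} (χ : C →* Multiplicative (ZMod N))

/-- the functions `f : H → G0` with `f (x u) = u⁻¹ f(x)` for `u ∈ C` -/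
def CG : Subgroup (H → G0 N) where
  carrier := {f | ∀ (x : H) (u : C), f (x * u) = (α N (χ u))⁻¹ (f x)}
  one_mem' := fun x u => by simp
  mul_mem' := fun {f g} hf hg x u => by
    show f (x * u) * g (x * u) = _
    rw [hf, hg, ← map_mul]
    rfl
  inv_mem' := fun {f} hf x u => by
    show (f (x * u))⁻¹ = _
    rw [hf, ← map_inv]
    rfl

variable {χ}

/-- the part of `x` in the subgroup -/
noncomputable def cp (C : Subgroup H) (x : H) : C :=
  ⟨(QuotientGroup.mk x : H ⧸ C).out⁻¹ * x, QuotientGroup.eq.1 (Quotient.out_eq _)⟩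

lemma out_cp (x : H) : (QuotientGroup.mk x : H ⧸ C).out * cp C x = x := by
  simp [cp]

lemma cp_mul (x : H) (u : C) : cp C (x * u) = cp C x * u := by
  apply Subtype.ext
  simp only [cp, Subgroup.coe_mul]
  rw [QuotientGroup.mk_mul_of_mem x u.2, mul_assoc]

lemma cp_out (q : H ⧸ C) : cp C q.out = 1 := by
  apply Subtype.ext
  simp only [cp, Subgroup.coe_one]
  rw [QuotientGroup.out_eq']
  simp

variable (χ) in
noncomputable def coindEquiv : CG χ ≃* (H ⧸ C → G0 N) where
  toFun f q := f.1 q.out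
  invFun φ := ⟨fun x => (α N (χ (cp C x)))⁻¹ (φ x), fun x u => by
    beta_reduce
    rw [cp_mul, map_mul, map_mul, mul_inv_rev, MulAut.mul_apply,
      QuotientGroup.mk_mul_of_mem x u.2]⟩
  left_inv f := by
    apply Subtype.ext
    funext x
    show (α N (χ (cp C x)))⁻¹ (f.1 (QuotientGroup.mk x : H ⧸ C).out) = f.1 x
    rw [← f.2, out_cp]
  right_inv φ := by
    funext q
    show (α N (χ (cp C q.out)))⁻¹ (φ (q.out : H)) = φ q
    rw [cp_out]
    simp
  map_mul' f g := rfl

theorem CG_LR [NeZero N] [Finite H] : LR (CG χ) := (LR_pi (N := N) (H ⧸ C)).equiv (coindEquiv χ)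

instance [NeZero N] [Finite H] : Countable (CG χ) := inferInstance

variable (χ) in
/-- the action of `H` on the coinduced group -/
noncomputable def act : H →* MulAut (CG χ) := MonoidHom.mk'
  (fun h =>
    { toFun := fun f => ⟨fun x => f.1 (h⁻¹ * x), fun x u => by
        beta_reduce
        rw [← mul_assoc, f.2]⟩
      invFun := fun f => ⟨fun x => f.1 (h * x), fun x u => by
        beta_reduce
        rw [← mul_assoc, f.2]⟩
      left_inv := fun f => by
        apply Subtype.ext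
        funext x
        simp
      right_inv := fun f => by
        apply Subtype.ext
        funext x
        simp
      map_mul' := fun f g => rfl })
  (fun a b => by
    ext1 f
    apply Subtype.ext
    funext x
    show f.1 ((a * b)⁻¹ * x) = f.1 (b⁻¹ * (a⁻¹ * x))
    rw [mul_inv_rev, mul_assoc])

lemma act_apply (h : H) (f : CG χ) (x : H) : (act χ h f).1 x = f.1 (h⁻¹ * x) := rfl

open Classical in
variable (χ) in
/-- the functions supported on `C` -/
noncomputable def sp : G0 N →* CG χ where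
  toFun g := ⟨fun x => if h : x ∈ C then (α N (χ ⟨x, h⟩))⁻¹ g else 1, fun x u => by
    beta_reduce
    by_cases h : x ∈ C
    · have h' : x * u ∈ C := C.mul_mem h u.2
      rw [dif_pos h, dif_pos h']
      have : (⟨x * u, h'⟩ : C) = ⟨x, h⟩ * u := rfl
      rw [this, map_mul, map_mul, mul_inv_rev, MulAut.mul_apply]
    · have h' : x * u ∉ C := fun k => h (by simpa using C.mul_mem k (C.inv_mem u.2))
      rw [dif_neg h, dif_neg h', map_one]⟩
  map_one' := by
    apply Subtype.ext
    funext x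
    show (if h : x ∈ C then (α N (χ ⟨x, h⟩))⁻¹ (1 : G0 N) else 1) = 1
    split_ifs <;> simp
  map_mul' a b := by
    apply Subtype.ext
    funext x
    show (if h : x ∈ C then (α N (χ ⟨x, h⟩))⁻¹ (a * b) else 1) =
      (if h : x ∈ C then (α N (χ ⟨x, h⟩))⁻¹ a else 1) *
      (if h : x ∈ C then (α N (χ ⟨x, h⟩))⁻¹ b else 1)
    split_ifs <;> simp

open Classical in
lemma sp_apply (g : G0 N) (x : H) :
    (sp χ g).1 x = if h : x ∈ C then (α N (χ ⟨x, h⟩))⁻¹ g else 1 := rfl

lemma act_sp (c : C) (g : G0 N) : act χ (c : H) (sp χ g) = sp χ (α N (χ c) g) := by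
  classical
  apply Subtype.ext
  funext x
  rw [act_apply, sp_apply, sp_apply]
  by_cases h : x ∈ C
  · have h' : (c : H)⁻¹ * x ∈ C := C.mul_mem (C.inv_mem c.2) h
    rw [dif_pos h, dif_pos h']
    have : (⟨(c : H)⁻¹ * x, h'⟩ : C) = c⁻¹ * ⟨x, h⟩ := rfl
    rw [this, map_mul, map_mul, mul_inv_rev, MulAut.mul_apply, map_inv, map_inv, inv_inv]
  · have h' : (c : H)⁻¹ * x ∉ C := fun k => h (by simpa using C.mul_mem c.2 k)
    rw [dif_neg h, dif_neg h']

end Coind

/-! ### Counting -/

theorem count {X : Type} [Fintype X] [DecidableEq X] (B : Finset X)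
    (pg ph rg rh u : Equiv.Perm X) (h1 : ∀ x ∈ B, pg x ≠ x) (h2 : ∀ x, x ∉ B → pg x = x)
    (h3 : ∀ x ∈ B, ph x = x) (rel : rg = rh * u * rh⁻¹ * u⁻¹)
    (c2 : rg * u = u * rg)
    (ag : 6 * (Finset.univ.filter (fun x => pg x ≠ rg x)).card < B.card)
    (ah : 6 * (Finset.univ.filter (fun x => ph x ≠ rh x)).card < B.card) : False := by
  obtain ⟨A, hA⟩ : ∃ A, A = Finset.univ.filter (fun x => pg x ≠ rg x) := ⟨_, rfl⟩
  obtain ⟨A', hA'⟩ : ∃ A', A' = Finset.univ.filter (fun x => ph x ≠ rh x) := ⟨_, rfl⟩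
  obtain ⟨Y, hY⟩ : ∃ Y, Y = Finset.univ.filter (fun x => rg x ≠ x) := ⟨_, rfl⟩
  obtain ⟨D, hD⟩ : ∃ D, D = Y.filter (fun x => rh x ≠ x) := ⟨_, rfl⟩
  rw [← hA] at ag
  rw [← hA'] at ah
  have k1 : B ⊆ Y ∪ A := by
    intro x hx
    rw [Finset.mem_union, hY, hA, Finset.mem_filter, Finset.mem_filter]
    by_cases h : rg x = x
    · right
      exact ⟨Finset.mem_univ _, fun k => h1 x hx (k.trans h)⟩
    · left
      exact ⟨Finset.mem_univ _, h⟩
  have k2 : D ⊆ A ∪ A' := by
    intro x hx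
    rw [hD, hY, Finset.mem_filter, Finset.mem_filter] at hx
    rw [Finset.mem_union, hA', hA, Finset.mem_filter, Finset.mem_filter]
    by_cases h : x ∈ B
    · right
      exact ⟨Finset.mem_univ _, fun k => hx.2 (k.symm.trans (h3 x h))⟩
    · left
      exact ⟨Finset.mem_univ _, fun k => hx.1.2 (k.symm.trans (h2 x h))⟩
  have k3 : Y ⊆ D ∪ D.image u := by
    intro x hx
    rw [Finset.mem_union]
    by_cases h : rh x = x
    · right
      rw [Finset.mem_image]
      have hx' := hx
      have huu : u (u⁻¹ x) = x := by simp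
      rw [hY, Finset.mem_filter] at hx'
      refine ⟨u⁻¹ x, ?_, by simp⟩
      rw [hD, Finset.mem_filter, hY, Finset.mem_filter]
      refine ⟨⟨Finset.mem_univ _, fun k => hx'.2 ?_⟩, fun k => hx'.2 ?_⟩
      · have : (rg * u) (u⁻¹ x) = (u * rg) (u⁻¹ x) := by rw [c2]
        rw [Equiv.Perm.mul_apply, Equiv.Perm.mul_apply, k, huu] at this
        exact this
      · rw [rel]
        simp only [Equiv.Perm.mul_apply]
        rw [show rh⁻¹ (u⁻¹ x) = u⁻¹ x from by
          conv_lhs => rw [← k]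
          simp, huu, h]
    · left
      rw [hD, Finset.mem_filter]
      exact ⟨hx, h⟩
  have c1 := (Finset.card_le_card k1).trans (Finset.card_union_le _ _)
  have c2 := (Finset.card_le_card k2).trans (Finset.card_union_le _ _)
  have c3 := (Finset.card_le_card k3).trans (Finset.card_union_le _ _)
  have c4 : (D.image u).card ≤ D.card := Finset.card_image_le
  omega

/-! ### The approximate actions -/

section Fake

variable {N : ℕ} {H : Type} [Group H] {C : Subgroup H} (χ : C →* Multiplicative (ZMod N))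

variable (C N) in
abbrev Xn (n : ℕ) := (H ⧸ C) × Hs (bE N n)

variable (C) in
noncomputable def En (n : ℕ) (f : H → G0 N) : Equiv.Perm (Xn N C n) where
  toFun p := (p.1, θ n (f p.1.out) * p.2)
  invFun p := (p.1, (θ n (f p.1.out))⁻¹ * p.2)
  left_inv p := by simp
  right_inv p := by simp

variable (C N) in
def Tn (n : ℕ) (h : H) : Equiv.Perm (Xn N C n) where
  toFun p := (h • p.1, p.2)
  invFun p := (h⁻¹ • p.1, p.2)
  left_inv p := by simp
  right_inv p := by simp

noncomputable def Pn (n : ℕ) (k : CG χ ⋊[act χ] H) : Equiv.Perm (Xn N C n) :=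
  En C n k.left.1 * Tn N C n k.right

lemma Pn_apply (n : ℕ) (k : CG χ ⋊[act χ] H) (p : Xn N C n) :
    Pn χ n k p = (k.right • p.1, θ n (k.left.1 (k.right • p.1).out) * p.2) := rfl

lemma Pn_mul (n : ℕ) (k l : CG χ ⋊[act χ] H) (hl : ∀ x, l.left.1 x ∈ Gn N n) :
    Pn χ n (k * l) = Pn χ n k * Pn χ n l := by
  ext1 p
  rw [Equiv.Perm.mul_apply, Pn_apply, Pn_apply, Pn_apply, SemidirectProduct.mul_right, mul_smul,
    SemidirectProduct.mul_left]
  refine Prod.ext rfl ?_
  show θ n (k.left.1 _ * (act χ k.right l.left).1 _) * p.2 = _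
  rw [act_apply, map_mul, mul_assoc]
  congr 2
  obtain ⟨q, hq⟩ : ∃ q, q = l.right • p.1 := ⟨_, rfl⟩
  rw [← hq]
  have hmem : q.out⁻¹ * (k.right⁻¹ * (k.right • q).out) ∈ C := by
    rw [← QuotientGroup.eq, QuotientGroup.out_eq']
    have : ((k.right⁻¹ * (k.right • q).out : H) : H ⧸ C) =
      k.right⁻¹ • (((k.right • q).out : H) : H ⧸ C) := rfl
    rw [this, QuotientGroup.out_eq', inv_smul_smul]
  have e : k.right⁻¹ * (k.right • q).out =
      q.out * ((⟨_, hmem⟩ : C) : H) := by
    simp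
  rw [e, l.left.2, α_inv_apply, θ_al _ _ _ (hl _)]

noncomputable def gg : CG χ ⋊[act χ] H := SemidirectProduct.inl (sp χ (g0 N))
noncomputable def ee (i : ℕ) : CG χ ⋊[act χ] H := SemidirectProduct.inl (sp χ (e0 N i))
noncomputable def ff (i : ℕ) : CG χ ⋊[act χ] H := SemidirectProduct.inl (sp χ (f0 N i))
noncomputable def hh (c : C) : CG χ ⋊[act χ] H := SemidirectProduct.inr (c : H)

lemma ff_comm (i j : ℕ) (h : i ≠ j) : ee χ j * ff χ i = ff χ i * ee χ j := by
  simp only [ee, ff, ← map_mul]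
  rw [rel2 i j h]

lemma gg_comm (i : ℕ) : gg χ * ee χ i = ee χ i * gg χ := by
  simp only [ee, gg, ← map_mul]
  rw [g0_comm]

lemma hh_rel (c : C) (hc : χ c = Multiplicative.ofAdd 1) (i : ℕ) :
    hh χ c * ee χ i * (hh χ c)⁻¹ * (ee χ i)⁻¹ *
      (ee χ i * ff χ i * (ee χ i)⁻¹ * (ff χ i)⁻¹) = gg χ := by
  have h0 : hh χ c * ee χ i * (hh χ c)⁻¹ = SemidirectProduct.inl (sp χ (al 1 (e0 N i))) := by
    have h0 := SemidirectProduct.inl_aut (φ := act χ) (c : H) (sp χ (e0 N i))
    rw [map_inv] at h0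
    rw [act_sp, hc] at h0
    exact h0.symm
  rw [h0]
  simp only [ee, ff, gg, ← map_inv, ← map_mul]
  rw [rel1]

lemma fin_rel {Q : Type} [Group Q] [Finite Q] (ρ : CG χ ⋊[act χ] H →* Q) (c : C)
    (hc : χ c = Multiplicative.ofAdd 1) :
    ∃ u, ρ (gg χ) = ρ (hh χ c) * u * (ρ (hh χ c))⁻¹ * u⁻¹ ∧ ρ (gg χ) * u = u * ρ (gg χ) := by
  obtain ⟨i, j, hij, e⟩ := Finite.exists_ne_map_eq_of_infinite (fun i => ρ (ee χ i))
  refine ⟨ρ (ee χ i), ?_, by rw [← map_mul, gg_comm, map_mul]⟩
  have h1 := congrArg ρ (ff_comm χ i j hij)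
  rw [map_mul, map_mul, ← e] at h1
  rw [← hh_rel χ c hc i]
  simp only [map_mul, map_inv, h1]
  group

lemma θ_g0 (hN : N ≠ 1) (m : ℕ) : θ m (g0 N) ≠ 1 := by
  intro h
  have : Fact (1 < N) ∨ N = 0 := by
    rcases Nat.lt_trichotomy N 1 with h | h | h
    · right; omega
    · exact absurd h hN
    · left; exact ⟨h⟩
  have hz := congrArg Hs.z h
  simp [θ, g0] at hz
  rcases this with h1 | rfl
  · exact one_ne_zero hz
  · exact one_ne_zero hz

open Classical in
lemma Pn_gg (m : ℕ) (q : H ⧸ C) (y : Hs (bE N m)) :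
    Pn χ m (gg χ) (q, y) = (q, (if q = ((1 : H) : H ⧸ C) then θ m (g0 N) else 1) * y) := by
  rw [Pn_apply]
  show ((1 : H) • q, θ m ((sp χ (g0 N)).1 ((1 : H) • q).out) * y) = _
  rw [one_smul, sp_apply]
  have hq : q.out ∈ C ↔ q = ((1 : H) : H ⧸ C) := by
    constructor
    · intro h
      rw [← QuotientGroup.out_eq' q, QuotientGroup.eq]
      simpa using h
    · intro h
      have h1 := QuotientGroup.out_eq' q
      rw [h] at h1
      rw [h]
      have := QuotientGroup.eq.1 h1
      simpa using this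
  by_cases h : q.out ∈ C
  · rw [dif_pos h, if_pos (hq.1 h), α_inv_apply, al_g0]
  · rw [dif_neg h, if_neg (fun k => h (hq.2 k)), map_one]

lemma Pn_hh (m : ℕ) (c : C) (y : Hs (bE N m)) :
    Pn χ m (hh χ c) (((1 : H) : H ⧸ C), y) = (((1 : H) : H ⧸ C), y) := by
  rw [Pn_apply]
  show ((c : H) • ((1 : H) : H ⧸ C), θ m ((1 : CG χ).1 _) * y) = _
  have h1 : (c : H) • ((1 : H) : H ⧸ C) = ((1 : H) : H ⧸ C) := by
    show (((c : H) * 1 : H) : H ⧸ C) = _
    rw [QuotientGroup.eq]
    simp
  rw [h1]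
  refine Prod.ext rfl ?_
  show θ m 1 * y = y
  rw [map_one, one_mul]

theorem not_stable [NeZero N] [Finite H] (hN : N ≠ 1) (c : C)
    (hc : χ c = Multiplicative.ofAdd 1) : ¬ StableInPermutations (CG χ ⋊[act χ] H) := by
  classical
  intro hs
  have hr : 0 < Nat.card (H ⧸ C) := Nat.card_pos
  obtain ⟨T, δ, hδ, h⟩ := hs {hh χ c, gg χ} (1 / (6 * Nat.card (H ⧸ C))) (by positivity)
  obtain ⟨m, hm⟩ := ((eventually_all_finset T).2 fun t _ =>
    eventually_all.2 fun x : H => Gn_ev (t.left.1 x)).exists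
  have : Finite (Hs (bE N m)) := inferInstance
  let _ : Fintype (H ⧸ C) := Fintype.ofFinite _
  let _ : Fintype (Hs (bE N m)) := Fintype.ofFinite _
  let e : Xn N C m ≃ Fin (Fintype.card (Xn N C m)) := Fintype.equivFin (Xn N C m)
  obtain ⟨ρ, hρ⟩ := h _ (fun k => e.permCongr (Pn χ m k)) (fun g _ h hh => by
    rw [Pn_mul χ m g h (hm h hh)]
    simpa [Equiv.permCongr_def] using hδ)
  obtain ⟨u, hu, hu'⟩ := fin_rel χ ρ c hc
  have hcard : Fintype.card (Xn N C m) = Nat.card (H ⧸ C) * Fintype.card (Hs (bE N m)) := by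
    rw [Fintype.card_prod, Nat.card_eq_fintype_card]
  have hF : 0 < Fintype.card (Hs (bE N m)) := Fintype.card_pos
  let B : Finset (Fin (Fintype.card (Xn N C m))) :=
    Finset.univ.image (fun y : Hs (bE N m) => e (((1 : H) : H ⧸ C), y))
  have hB : B.card = Fintype.card (Hs (bE N m)) := by
    rw [Finset.card_image_of_injective _ (fun a b hab => by simpa using hab), Finset.card_univ]
  have key : ∀ k ∈ ({hh χ c, gg χ} : Finset (CG χ ⋊[act χ] H)),
      6 * (Finset.univ.filter (fun x => e.permCongr (Pn χ m k) x ≠ ρ k x)).card < B.card := by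
    intro k hk
    have h1 := hρ k hk
    have hcpos : (0 : ℝ) < (Fintype.card (Xn N C m) : ℝ) := by
      rw [hcard]; push_cast; positivity
    obtain ⟨a, ha⟩ : ∃ a, a = (Finset.univ.filter
      (fun x => e.permCongr (Pn χ m k) x ≠ ρ k x)).card := ⟨_, rfl⟩
    rw [← ha] at h1 ⊢
    rw [div_lt_iff₀ hcpos, hcard] at h1
    push_cast at h1
    have hr' : (0 : ℝ) < (Nat.card (H ⧸ C) : ℝ) := by exact_mod_cast hr
    have h2 : 1 / (6 * (Nat.card (H ⧸ C) : ℝ)) * ((Nat.card (H ⧸ C) : ℝ) *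
      (Fintype.card (Hs (bE N m)) : ℝ)) = (Fintype.card (Hs (bE N m)) : ℝ) / 6 := by
      field_simp
    rw [h2, lt_div_iff₀ (by norm_num)] at h1
    rw [hB]
    have h3 : ((6 * a : ℕ) : ℝ) < (Fintype.card (Hs (bE N m)) : ℝ) := by
      push_cast
      linarith
    exact_mod_cast h3
  refine count B (e.permCongr (Pn χ m (gg χ))) (e.permCongr (Pn χ m (hh χ c))) (ρ (gg χ))
    (ρ (hh χ c)) u ?_ ?_ ?_ hu hu' (key _ (by simp)) (key _ (by simp))
  · intro x hx h4
    obtain ⟨y, -, rfl⟩ := Finset.mem_image.1 hx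
    have h5 : e (Pn χ m (gg χ) (e.symm (e (((1 : H) : H ⧸ C), y)))) = e (((1 : H) : H ⧸ C), y) := h4
    rw [e.symm_apply_apply, e.apply_eq_iff_eq, Pn_gg, if_pos rfl] at h5
    have h6 := mul_eq_right.1 (congrArg Prod.snd h5)
    exact θ_g0 hN m h6
  · intro x hx
    show e (Pn χ m (gg χ) (e.symm x)) = x
    obtain ⟨q, y, hqy⟩ : ∃ q y, e.symm x = (q, y) := ⟨_, _, rfl⟩
    have hq : q ≠ ((1 : H) : H ⧸ C) := by
      rintro rfl
      refine hx (Finset.mem_image.2 ⟨y, Finset.mem_univ _, ?_⟩)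
      rw [← hqy, e.apply_symm_apply]
    rw [hqy, Pn_gg, if_neg hq, one_mul, ← hqy, e.apply_symm_apply]
  · intro x hx
    obtain ⟨y, -, rfl⟩ := Finset.mem_image.1 hx
    show e (Pn χ m (hh χ c) (e.symm (e (((1 : H) : H ⧸ C), y)))) = e (((1 : H) : H ⧸ C), y)
    rw [e.symm_apply_apply, Pn_hh]

end Fake

/-! ### The theorem -/

/-- `K` is locally finite. -/
def IsLocallyFinite (K : Type) [Group K] : Prop :=
  ∀ S : Finset K, ∃ F : Subgroup K, Finite F ∧ ∀ s ∈ S, s ∈ F

theorem LR.locallyFinite {L : Type} [Group L] (hL : LR L) : IsLocallyFinite L := by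
  intro S
  obtain ⟨F, _, _, i, r, hir⟩ := hL S
  exact ⟨i.range, Finite.of_surjective (fun x : F => (⟨i x, x, rfl⟩ : i.range)) (by
    rintro ⟨_, x, rfl⟩
    exact ⟨x, rfl⟩), fun s hs => ⟨r s, hir s hs⟩⟩

theorem CG_comm {N : ℕ} {H : Type} [Group H] {C : Subgroup H} (χ : C →* Multiplicative (ZMod N))
    (a b c : CG χ) : (a * b * a⁻¹ * b⁻¹) * c = c * (a * b * a⁻¹ * b⁻¹) := by
  apply Subtype.ext
  funext x
  show (a.1 x * b.1 x * (a.1 x)⁻¹ * (b.1 x)⁻¹) * c.1 x =
    c.1 x * (a.1 x * b.1 x * (a.1 x)⁻¹ * (b.1 x)⁻¹)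
  generalize a.1 x = a
  generalize b.1 x = b
  generalize c.1 x = c
  ext i
  all_goals simp [GB]
  all_goals ring

theorem stable_equiv {K L : Type} [Group K] [Group L] (e : K ≃* L) (h : StableInPermutations K) :
    StableInPermutations L := by
  classical
  intro S ε hε
  obtain ⟨T, δ, hδ, hT⟩ := h (S.image e.symm) ε hε
  refine ⟨T.image e, δ, hδ, fun n f hf => ?_⟩
  obtain ⟨ρ, hρ⟩ := hT n (fun k => f (e k)) (fun g hg k hk => by
    rw [map_mul]
    exact hf _ (Finset.mem_image_of_mem _ hg) _ (Finset.mem_image_of_mem _ hk))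
  refine ⟨ρ.comp e.symm.toMonoidHom, fun g hg => ?_⟩
  have := hρ _ (Finset.mem_image_of_mem _ hg)
  simpa using this

/-- **Theorem.** Let `H` be a finite group. If `H` is trivial, `G ⋊ H` is stable in permutations for
every stable `G`. If `H` is nontrivial, there are a countable group `G`, stable in permutations,
locally finite and nilpotent of class at most two, and an action of `H` on `G` such that `G ⋊ H` is
not stable in permutations. So the implication of the question holds for no finite group `H` but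
the trivial one, not even for locally finite groups `G`. -/
theorem result (H : Type) [Group H] [Finite H] :
    ((∀ (G : Type) [Group G] [Countable G], StableInPermutations G →
      ∀ φ : H →* MulAut G, StableInPermutations (G ⋊[φ] H)) ↔ Subsingleton H) ∧
    (Nontrivial H → ∃ (G : Type) (_ : Group G) (φ : H →* MulAut G), Countable G ∧
      IsLocallyFinite G ∧ (∀ a b c : G, (a * b * a⁻¹ * b⁻¹) * c = c * (a * b * a⁻¹ * b⁻¹)) ∧
      StableInPermutations G ∧ ¬ StableInPermutations (G ⋊[φ] H)) := by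
  have main : Nontrivial H → ∃ (G : Type) (_ : Group G) (φ : H →* MulAut G), Countable G ∧
      IsLocallyFinite G ∧ (∀ a b c : G, (a * b * a⁻¹ * b⁻¹) * c = c * (a * b * a⁻¹ * b⁻¹)) ∧
      StableInPermutations G ∧ ¬ StableInPermutations (G ⋊[φ] H) := by
    intro hH
    obtain ⟨h0, hh0⟩ := exists_ne (1 : H)
    let C : Subgroup H := Subgroup.zpowers h0
    have hN0 : Nat.card C ≠ 0 := Nat.card_pos.ne'
    have : NeZero (Nat.card C) := ⟨hN0⟩
    have hN1 : Nat.card C ≠ 1 := by
      intro h1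
      have := Subgroup.card_eq_one.1 h1
      exact hh0 (Subgroup.zpowers_eq_bot.1 this)
    have hcyc : IsCyclic C := inferInstance
    let E : Multiplicative (ZMod (Nat.card C)) ≃* C := zmodCyclicMulEquiv hcyc
    let χ : C →* Multiplicative (ZMod (Nat.card C)) := E.symm.toMonoidHom
    refine ⟨CG χ, inferInstance, act χ, inferInstance, CG_LR.locallyFinite, CG_comm χ,
      CG_LR.stable, not_stable χ hN1 (E (Multiplicative.ofAdd 1)) ?_⟩
    exact E.symm_apply_apply _
  refine ⟨⟨fun h => ?_, fun h G _ _ hG φ => ?_⟩, main⟩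
  · by_contra hn
    rw [not_subsingleton_iff_nontrivial] at hn
    obtain ⟨G, _, φ, h1, -, -, h2, h3⟩ := main hn
    exact h3 (h G h2 φ)
  · refine stable_equiv (?_ : G ≃* G ⋊[φ] H) hG
    exact MulEquiv.ofBijective SemidirectProduct.inl ⟨SemidirectProduct.inl_injective, fun x =>
      ⟨x.left, SemidirectProduct.ext rfl (Subsingleton.elim _ _)⟩⟩

end Pool.Agent.Results.MP_94dfa5_al.EveryFiniteGroup
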